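import Pool.Agent.Helper15.BR.Defs
import Pool.Agent.Helper56.CL.TriF

/-!
# BR, front end: points at which the algebras have good reduction at all bad places
-/

set_option autoImplicit false

namespace Pool.Agent.Helper15.BR

open NumberField IsDedekindDomain Pool.Agent.Helper4.CB Pool.Agent.Helper65.CL
open Pool.Agent.Helper69.CB (TriDeg vl)
open Pool.Agent.Helper56.CL (start eval_le_one)

/-- the determinant of `LR` after scaling the structure constants -/
theorem det_LR_smul {R : Type*} [CommRing R] {D : ℕ} (u : R) (c : SC R D) :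
    (LR (fun i j k => u * c i j k)).det = (u ^ 2) ^ (D * D) * (LR c).det := by
  have h : LR (fun i j k => u * c i j k) = u ^ 2 • LR c := by
    ext x y
    simp only [LR, Matrix.smul_apply, smul_eq_mul, Finset.mul_sum]
    exact Finset.sum_congr rfl fun m _ => by ring
  rw [h, Matrix.det_smul]
  simp

/-- the data of `Unr` over a polynomial ring give good reduction at a point -/
theorem good_of_data {K : Type} [Field K] [NumberField K] {D : ℕ} (p : Pl K)
    {g : Matrix (Fin D) (Fin D) K} {s h : K} {c c' : SC K D} (hg : g.det ≠ 0) (hs : s ≠ 0)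
    (hh : vl p h = 1) (hc' : vl p (LR c').det = 1) (hci : ∀ i j k, vl p (c' i j k) ≤ 1)
    (heq : ∀ i j d, h * ∑ a, ∑ b, g i a * g j b * c a b d = s * ∑ k, c' i j k * g k d) :
    Good p c := by
  have hh0 : h ≠ 0 := by
    intro h0
    rw [h0, map_zero] at hh
    exact zero_ne_one hh
  refine ⟨s⁻¹ • g, fun i j k => h⁻¹ * c' i j k, ?_, ?_, ?_, ?_⟩
  · rw [Matrix.det_smul]
    exact mul_ne_zero (pow_ne_zero _ (inv_ne_zero hs)) hg
  · intro i j k
    rw [map_mul, map_inv₀, hh, inv_one, one_mul]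
    exact hci i j k
  · rw [det_LR_smul, map_mul, map_pow, map_pow, map_inv₀, hh, hc']
    simp
  · intro i j d
    have h1 : ∑ a, ∑ b, (s⁻¹ • g) i a * (s⁻¹ • g) j b * c a b d =
        s⁻¹ ^ 2 * ∑ a, ∑ b, g i a * g j b * c a b d := by
      rw [Finset.mul_sum]
      refine Finset.sum_congr rfl fun a _ => ?_
      rw [Finset.mul_sum]
      refine Finset.sum_congr rfl fun b _ => ?_
      simp only [Matrix.smul_apply, smul_eq_mul]
      ring
    have h2 : ∑ k, h⁻¹ * c' i j k * (s⁻¹ • g) k d = h⁻¹ * s⁻¹ * ∑ k, c' i j k * g k d := by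
      rw [Finset.mul_sum]
      refine Finset.sum_congr rfl fun k _ => ?_
      simp only [Matrix.smul_apply, smul_eq_mul]
      ring
    rw [h1, h2]
    have h3 := heq i j d
    have h4 : ∑ a, ∑ b, g i a * g j b * c a b d = h⁻¹ * (s * ∑ k, c' i j k * g k d) := by
      rw [← h3, inv_mul_cancel_left₀ hh0]
    rw [h4]
    field_simp

/-- integral structure constants with unit determinant -/
theorem good_self {K : Type} [Field K] [NumberField K] {D : ℕ} (p : Pl K) {c : SC K D}
    (hc : vl p (LR c).det = 1) (hci : ∀ i j k, vl p (c i j k) ≤ 1) : Good p c := by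
  refine ⟨1, c, by simp, hci, hc, fun i j d => ?_⟩
  simp [Matrix.one_apply]

/-- **TRI-U**: points of the base at which a finite family of algebras has good reduction at the
bad places -/
theorem tri_unr (K : Type) [Field K] [NumberField K] {n dm : ℕ} {Λ : Finset ℕ}
    (hΛ : ∀ l ∈ Λ, 2 ≤ l) (hE : ∀ A Dg J0 : ℕ, ∃ J, J0 ≤ J ∧ TriClaim K Λ J dm A Dg n)
    (J1 : ℕ) {r : Type} [Fintype r] (D : r → ℕ)
    (c : ∀ i, SC (MvPolynomial (Fin n) K) (D i)) (hc : ∀ i, (LR (c i)).det ≠ 0)
    (hP : ∀ i, ∀ P : MvPolynomial (Fin n) K, Irreducible P → P ∣ (LR (c i)).det →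
      TriDeg dm P ∨ Unr P (c i)) :
    ∃ J, J1 ≤ J ∧ ∀ f : MvPolynomial (Fin n) K, f ≠ 0 →
      ∃ φ : MvPolynomial (Fin n) K →ₐ[K] K, φ f ≠ 0 ∧
      ∀ i, ∀ p : Pl K, Bad Λ J p → Good p (mapSC φ (c i)) := by
  classical
  -- the factors
  set fac : r → Finset (MvPolynomial (Fin n) K) := fun i =>
    (UniqueFactorizationMonoid.factors (LR (c i)).det).toFinset with hfac
  have hirr : ∀ i, ∀ P ∈ fac i, Irreducible P := fun i P hPi =>
    UniqueFactorizationMonoid.irreducible_of_factor P (Multiset.mem_toFinset.1 hPi)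
  have hdvd : ∀ i, ∀ P ∈ fac i, P ∣ (LR (c i)).det := fun i P hPi =>
    UniqueFactorizationMonoid.dvd_of_mem_factors (Multiset.mem_toFinset.1 hPi)
  have hunit : ∀ i, ∃ U : (MvPolynomial (Fin n) K)ˣ,
      (UniqueFactorizationMonoid.factors (LR (c i)).det).prod * U = (LR (c i)).det := fun i =>
    UniqueFactorizationMonoid.factors_prod (hc i)
  choose U hU using hunit
  let FF : Finset (MvPolynomial (Fin n) K) := (Finset.univ.biUnion fac).filter (TriDeg dm)
  let κ : Type := Σ i : r, {P // P ∈ (fac i).filter fun P => ¬ TriDeg dm P}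
  let _ : Fintype κ :=
    inferInstanceAs (Fintype (Σ i : r, {P // P ∈ (fac i).filter fun P => ¬ TriDeg dm P}))
  have hL : ∀ j : κ, Unr j.2.1 (c j.1) := by
    rintro ⟨i, P, hPi⟩
    rw [Finset.mem_filter] at hPi
    exact (hP i P (hirr i P hPi.1) (hdvd i P hPi.1)).resolve_left hPi.2
  choose g s h c' h1 h2 h3 h4 h5 using hL
  let T : κ → Finset (MvPolynomial (Fin n) K) := fun j => {j.2.1, h j * (LR (c' j)).det}
  -- all polynomials whose coefficients have to be units
  let PP : Finset (MvPolynomial (Fin n) K) := FF ∪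
    Finset.univ.biUnion (fun j : κ => {j.2.1, h j * (LR (c' j)).det, h j, (LR (c' j)).det} ∪
      Finset.univ.image (fun x : Fin (D j.1) × Fin (D j.1) × Fin (D j.1) =>
        c' j x.1 x.2.1 x.2.2)) ∪
    Finset.univ.biUnion (fun i : r => {(LR (c i)).det, (U i : MvPolynomial (Fin n) K),
      (((U i)⁻¹ : (MvPolynomial (Fin n) K)ˣ) : MvPolynomial (Fin n) K)} ∪
      Finset.univ.image (fun x : Fin (D i) × Fin (D i) × Fin (D i) => c i x.1 x.2.1 x.2.2))
  let S : Finset K := PP.biUnion fun q => q.support.image fun m => q.coeff m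
  have hS : ∀ q ∈ PP, ∀ m, q.coeff m ≠ 0 → q.coeff m ∈ S := by
    intro q hq m hm
    refine Finset.mem_biUnion.2 ⟨q, hq, Finset.mem_image.2 ⟨m, ?_, rfl⟩⟩
    rwa [MvPolynomial.mem_support_iff]
  obtain ⟨J0, hJ0⟩ := start K hΛ S 0
  obtain ⟨J, hJ, hpts⟩ := hE (Fintype.card {P // P ∈ FF} + Fintype.card κ)
    (PP.sup MvPolynomial.totalDegree) (J0 + J1)
  refine ⟨J, by omega, ?_⟩
  intro F hF
  have hint : ∀ p : Pl K, Bad Λ J p → ∀ q ∈ PP, ∀ m, p.valuation K (q.coeff m) ≤ 1 := by
    intro p hp q hq m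
    by_cases hm : q.coeff m = 0
    · rw [hm, map_zero]
      exact zero_le
    · exact ((hJ0 J (by omega) p hp).2 _ (hS q hq m hm) hm).le
  have huc : ∀ p : Pl K, Bad Λ J p → ∀ q ∈ PP, ∀ m, q.coeff m ≠ 0 →
      p.valuation K (q.coeff m) = 1 := fun p hp q hq m hm =>
    (hJ0 J (by omega) p hp).2 _ (hS q hq m hm) hm
  have hdeg : ∀ q ∈ PP, ∀ j, q.degreeOf j ≤ PP.sup MvPolynomial.totalDegree := fun q hq j =>
    (MvPolynomial.degreeOf_le_totalDegree q j).trans
      (Finset.le_sup (f := MvPolynomial.totalDegree) hq)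
  have hFFP : ∀ q ∈ FF, q ∈ PP := fun q hq =>
    Finset.mem_union_left _ (Finset.mem_union_left _ hq)
  have hκP : ∀ j : κ, ∀ q ∈ ({j.2.1, h j * (LR (c' j)).det, h j, (LR (c' j)).det} :
      Finset (MvPolynomial (Fin n) K)), q ∈ PP := fun j q hq =>
    Finset.mem_union_left _ (Finset.mem_union_right _
      (Finset.mem_biUnion.2 ⟨j, Finset.mem_univ _, Finset.mem_union_left _ hq⟩))
  have hκc : ∀ (j : κ) (x y z : Fin (D j.1)), c' j x y z ∈ PP := fun j x y z =>
    Finset.mem_union_left _ (Finset.mem_union_right _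
      (Finset.mem_biUnion.2 ⟨j, Finset.mem_univ _, Finset.mem_union_right _
        (Finset.mem_image.2 ⟨(x, y, z), Finset.mem_univ _, rfl⟩)⟩))
  have hiP : ∀ i : r, ∀ q ∈ ({(LR (c i)).det, (U i : MvPolynomial (Fin n) K),
      (((U i)⁻¹ : (MvPolynomial (Fin n) K)ˣ) : MvPolynomial (Fin n) K)} :
      Finset (MvPolynomial (Fin n) K)), q ∈ PP := fun i q hq =>
    Finset.mem_union_right _ (Finset.mem_biUnion.2 ⟨i, Finset.mem_univ _,
      Finset.mem_union_left _ hq⟩)
  have hic : ∀ (i : r) (x y z : Fin (D i)), c i x y z ∈ PP := fun i x y z =>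
    Finset.mem_union_right _ (Finset.mem_biUnion.2 ⟨i, Finset.mem_univ _,
      Finset.mem_union_right _ (Finset.mem_image.2 ⟨(x, y, z), Finset.mem_univ _, rfl⟩)⟩)
  have hFFirr : ∀ q ∈ FF, Irreducible q := by
    intro q hq
    obtain ⟨hq1, -⟩ := Finset.mem_filter.1 hq
    obtain ⟨i, -, hi⟩ := Finset.mem_biUnion.1 hq1
    exact hirr i q hi
  have hκirr : ∀ j : κ, Irreducible j.2.1 := fun j =>
    hirr j.1 _ (Finset.mem_filter.1 j.2.2).1
  have hnd : ∀ j : κ, ¬ j.2.1 ∣ h j * (LR (c' j)).det := by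
    intro j hd
    rcases (hκirr j).prime.dvd_or_dvd hd with hd | hd
    · exact h3 j hd
    · exact h4 j hd
  have hTP : ∀ j : κ, ∀ q ∈ T j, q ∈ PP := fun j q hq => hκP j q (by
    rcases Finset.mem_insert.1 hq with rfl | hq
    · simp
    · rw [Finset.mem_singleton.1 hq]
      simp)
  obtain ⟨t, ht1, ht2⟩ := hpts {P // P ∈ FF} κ (fun i : {P // P ∈ FF} => i.1) T
    (F * ∏ j : κ, ((g j).det * s j)) le_rfl
    (fun i => ⟨hFFirr _ i.2, (Finset.mem_filter.1 i.2).2⟩)
    (by
      intro j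
      refine ⟨⟨j.2.1, Finset.mem_insert_self _ _, (hκirr j).ne_zero⟩, fun Q hQ => ?_⟩
      by_contra hcon
      have hall : ∀ f ∈ T j, Q ∣ f := fun f hf => by
        by_contra hh
        exact hcon ⟨f, hf, hh⟩
      have hQ1 : Q ∣ j.2.1 := hall _ (Finset.mem_insert_self _ _)
      have hQ2 : Q ∣ h j * (LR (c' j)).det :=
        hall _ (Finset.mem_insert_of_mem (Finset.mem_singleton_self _))
      have hass : Associated Q j.2.1 := hQ.associated_of_dvd (hκirr j) hQ1
      exact hnd j (hass.symm.dvd.trans hQ2))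
    (fun i j => hdeg _ (hFFP _ i.2) j)
    (fun k f hf j => hdeg f (hTP k f hf) j)
    (fun p hp i m hm => huc p hp _ (hFFP _ i.2) m hm)
    (fun p hp k f hf m hm => huc p hp f (hTP k f hf) m hm)
    (mul_ne_zero hF (Finset.prod_ne_zero_iff.2 fun j _ => mul_ne_zero (h1 j) (h2 j)))
  rw [map_mul, map_prod] at ht1
  have hF1 : MvPolynomial.eval t F ≠ 0 := left_ne_zero_of_mul ht1
  have hgs : ∀ j : κ, MvPolynomial.eval t (g j).det ≠ 0 ∧ MvPolynomial.eval t (s j) ≠ 0 := by
    intro j
    have hj := Finset.prod_ne_zero_iff.1 (right_ne_zero_of_mul ht1) j (Finset.mem_univ j)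
    rw [map_mul] at hj
    exact ⟨left_ne_zero_of_mul hj, right_ne_zero_of_mul hj⟩
  refine ⟨MvPolynomial.aeval t, ?_, ?_⟩
  · rw [MvPolynomial.aeval_eq_eval]
    exact hF1
  intro i p hp
  have hφ : mapSC (MvPolynomial.aeval t : MvPolynomial (Fin n) K →ₐ[K] K) (c i) =
      mapSC (MvPolynomial.eval t) (c i) := by
    funext x y z
    show (MvPolynomial.aeval t) _ = _
    rw [MvPolynomial.aeval_eq_eval]
    rfl
  rw [hφ]
  obtain ⟨ht, hFF, hTT⟩ := ht2 p hp
  have hev : ∀ q ∈ PP, p.valuation K (MvPolynomial.eval t q) ≤ 1 := fun q hq =>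
    eval_le_one p (hint p hp q hq) ht
  have key : ∀ x y : WithZero (Multiplicative ℤ), x ≤ 1 → y ≤ 1 → x * y = 1 → x = 1 ∧ y = 1 := by
    intro x y hx hy hxy
    have h1 : 1 ≤ x := by
      rw [← hxy]
      exact mul_le_of_le_one_right' hy
    have h2 : 1 ≤ y := by
      rw [← hxy]
      exact mul_le_of_le_one_left' hx
    exact ⟨le_antisymm hx h1, le_antisymm hy h2⟩
  by_cases hex : ∃ P ∈ (fac i).filter (fun P => ¬ TriDeg dm P),
      p.valuation K (MvPolynomial.eval t P) < 1
  · obtain ⟨P, hPm, hPv⟩ := hex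
    set j : κ := ⟨i, P, hPm⟩ with hj
    have hunit2 : p.valuation K (MvPolynomial.eval t (h j * (LR (c' j)).det)) = 1 := by
      obtain ⟨q, hq, hq1⟩ := hTT j
      rcases Finset.mem_insert.1 hq with rfl | hq
      · exact absurd hq1 hPv.ne
      · rwa [Finset.mem_singleton.1 hq] at hq1
    rw [map_mul, map_mul] at hunit2
    obtain ⟨hh1, hd1⟩ := key _ _ (hev (h j) (hκP j _ (by simp)))
      (hev _ (hκP j _ (by simp))) hunit2
    refine good_of_data p (g := (g j).map (MvPolynomial.eval t)) (s := MvPolynomial.eval t (s j))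
      (h := MvPolynomial.eval t (h j)) (c' := mapSC (MvPolynomial.eval t) (c' j)) ?_ (hgs j).2
      hh1 ?_ (fun x y z => hev _ (hκc j x y z)) ?_
    · have h6 := RingHom.map_det (MvPolynomial.eval t) (g j)
      have h7 := (hgs j).1
      rw [h6] at h7
      exact h7
    · rw [det_LR_map]
      exact hd1
    · intro x y d
      exact unr_eq_map (MvPolynomial.eval t) (h5 j) x y d
  · have hall : ∀ P ∈ fac i, p.valuation K (MvPolynomial.eval t P) = 1 := by
      intro P hPm
      by_cases hTP : TriDeg dm P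
      · exact hFF ⟨P, Finset.mem_filter.2 ⟨Finset.mem_biUnion.2 ⟨i, Finset.mem_univ _, hPm⟩, hTP⟩⟩
      · have hPm' : P ∈ (fac i).filter (fun P => ¬ TriDeg dm P) := Finset.mem_filter.2 ⟨hPm, hTP⟩
        refine le_antisymm (hev P (hκP ⟨i, P, hPm'⟩ P (by simp))) ?_
        by_contra hlt
        exact hex ⟨P, hPm', not_le.1 hlt⟩
    have hprod : p.valuation K (MvPolynomial.eval t
        (UniqueFactorizationMonoid.factors (LR (c i)).det).prod) = 1 := by
      have : ∀ s : Multiset (MvPolynomial (Fin n) K),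
          (∀ P ∈ s, p.valuation K (MvPolynomial.eval t P) = 1) →
          p.valuation K (MvPolynomial.eval t s.prod) = 1 := by
        intro s
        induction s using Multiset.induction_on with
        | empty => intro _; simp
        | cons P s ih =>
          intro hs
          rw [Multiset.prod_cons, map_mul, map_mul, hs P (Multiset.mem_cons_self P s),
            ih (fun Q hQ => hs Q (Multiset.mem_cons_of_mem hQ)), one_mul]
      exact this _ (fun P hPm => hall P (Multiset.mem_toFinset.2 hPm))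
    have hUv : p.valuation K (MvPolynomial.eval t (U i : MvPolynomial (Fin n) K)) = 1 := by
      have hm : (U i : MvPolynomial (Fin n) K) *
          (((U i)⁻¹ : (MvPolynomial (Fin n) K)ˣ) : MvPolynomial (Fin n) K) = 1 :=
        Units.mul_inv (U i)
      have hm2 := congrArg (fun q => p.valuation K (MvPolynomial.eval t q)) hm
      simp only [map_mul, map_one] at hm2
      exact (key _ _ (hev _ (hiP i _ (by simp))) (hev _ (hiP i _ (by simp))) hm2).1
    refine good_self p ?_ (fun x y z => hev _ (hic i x y z))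
    rw [det_LR_map, ← hU i, map_mul, map_mul, hprod, hUv, one_mul]

end Pool.Agent.Helper15.BR
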