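import Pool.Agent.Helper15.BR.Desc
import Pool.Agent.Helper15.BR.TriU
import Pool.Agent.Helper65.CL.Claim3

/-!
# BR, front end: from the algebraic closure to points with good reduction at all bad places
-/

set_option autoImplicit false

namespace Pool.Agent.Helper15.BR

open NumberField Pool.Agent.Helper4.CB Pool.Agent.Helper65.CL
open Pool.Agent.Helper69.CB (TriDeg vl)

/-- **FRONT**, from the claim for all number fields -/
theorem front_of (dm : ℕ) (K : Type) [Field K] [NumberField K] {n r : ℕ} (Λ : Finset ℕ)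
    (hΛ : ∀ q ∈ Λ, q.Prime)
    (hE : ∀ (M : Type) [Field M] [NumberField M] (A Dg J0 : ℕ),
      ∃ J, J0 ≤ J ∧ TriClaim M Λ J dm A Dg n)
    (e : ℕ) (he : e ≠ 0) (D : Fin r → ℕ) (c : ∀ i, SC (MvPolynomial (Fin n) K) (D i))
    (hc : ∀ i, (LR (c i)).det ≠ 0)
    (hP : ∀ i, ∀ P : MvPolynomial (Fin n) (AlgebraicClosure K), Irreducible P →
      P ∣ MvPolynomial.map (algebraMap K (AlgebraicClosure K)) (LR (c i)).det → TriDeg dm P ∨
        Unr P (mapSC (MvPolynomial.map (algebraMap K (AlgebraicClosure K))) (c i)))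
    (J1 : ℕ) :
    ∃ (M : Type) (_ : Field M) (_ : NumberField M) (_ : Algebra K M) (J : ℕ), J1 ≤ J ∧
      (∃ ζ : M, IsPrimitiveRoot ζ e) ∧
      ∀ f : MvPolynomial (Fin n) K, f ≠ 0 → ∃ φ : MvPolynomial (Fin n) K →ₐ[K] M, φ f ≠ 0 ∧
        ∀ i, ∀ p : Pl M, Bad Λ J p → Good p (mapSC φ (c i)) := by
  obtain ⟨M, hM, hζ, hMP⟩ := descend
    (fun d : Fin n → ℕ => ∀ j : Fin n, (∀ i < j, d i = 0) → d j ≤ dm) D c hc e he hP
  have hMn : NumberField M := NumberField.of_module_finite K M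
  have hinj : Function.Injective (MvPolynomial.map (σ := Fin n) (algebraMap K M)) :=
    MvPolynomial.map_injective _ (algebraMap K M).injective
  have hdet : ∀ i, (LR (mapSC (MvPolynomial.map (algebraMap K M)) (c i))).det =
      MvPolynomial.map (algebraMap K M) (LR (c i)).det := fun i => det_LR_map _ _
  obtain ⟨J, hJ1, hJ⟩ := tri_unr M (dm := dm) (fun q hq => (hΛ q hq).two_le) (hE M) J1 D
    (fun i => mapSC (MvPolynomial.map (algebraMap K M)) (c i))
    (fun i => by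
      rw [hdet, Ne, map_eq_zero_iff _ hinj]
      exact hc i)
    (fun i P hP1 hP2 => hMP i P hP1 (by rwa [hdet] at hP2))
  refine ⟨M, inferInstance, hMn, inferInstance, J, hJ1, hζ, fun f hf => ?_⟩
  obtain ⟨φ, h1, h2⟩ := hJ (MvPolynomial.map (algebraMap K M) f)
    (by rw [Ne, map_eq_zero_iff _ hinj]; exact hf)
  exact ⟨(φ.restrictScalars K).comp (MvPolynomial.mapAlgHom (Algebra.ofId K M)), h1,
    fun i p hp => h2 i p hp⟩

/-- **FRONT.** `n` variables, irreducible polynomials of degree at most 3 in their first variable or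
at which the algebra is unramified -/
theorem front (K : Type) [Field K] [NumberField K] {n r : ℕ} (Λ : Finset ℕ)
    (hΛ : ∀ q ∈ Λ, q.Prime) (e : ℕ) (he : e ≠ 0) (D : Fin r → ℕ)
    (c : ∀ i, SC (MvPolynomial (Fin n) K) (D i)) (hc : ∀ i, (LR (c i)).det ≠ 0)
    (hP : ∀ i, ∀ P : MvPolynomial (Fin n) (AlgebraicClosure K), Irreducible P →
      P ∣ MvPolynomial.map (algebraMap K (AlgebraicClosure K)) (LR (c i)).det → TriDeg 3 P ∨
        Unr P (mapSC (MvPolynomial.map (algebraMap K (AlgebraicClosure K))) (c i)))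
    (J1 : ℕ) :
    ∃ (M : Type) (_ : Field M) (_ : NumberField M) (_ : Algebra K M) (J : ℕ), J1 ≤ J ∧
      (∃ ζ : M, IsPrimitiveRoot ζ e) ∧
      ∀ f : MvPolynomial (Fin n) K, f ≠ 0 → ∃ φ : MvPolynomial (Fin n) K →ₐ[K] M, φ f ≠ 0 ∧
        ∀ i, ∀ p : Pl M, Bad Λ J p → Good p (mapSC φ (c i)) :=
  front_of 3 K Λ hΛ (fun M _ _ A Dg J0 => triClaim_three Λ hΛ M n A Dg J0) e he D c hc hP J1

end Pool.Agent.Helper15.BR
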