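import Pool.Agent.Helper15.BR.Defs

/-!
# BR, front end: the determinant of `LR` for a free Azumaya algebra
-/

set_option autoImplicit false

namespace Pool.Agent.Helper15.BR

open TensorProduct Module

/-- the basis of the endomorphisms, with rows and columns exchanged -/
noncomputable def endB {O B : Type*} [CommRing O] [AddCommGroup B] [Module O B] {D : ℕ}
    (b : Basis (Fin D) O B) : Basis (Fin D × Fin D) O (Module.End O B) :=
  ((Matrix.stdBasis O (Fin D) (Fin D)).map (LinearMap.toMatrix b b).symm).reindex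
    (Equiv.prodComm (Fin D) (Fin D))

theorem endB_repr {O B : Type*} [CommRing O] [AddCommGroup B] [Module O B] {D : ℕ}
    (b : Basis (Fin D) O B) (f : Module.End O B) (y : Fin D × Fin D) :
    (endB b).repr f y = b.repr (f (b y.1)) y.2 := by
  have h : ∀ M : Matrix (Fin D) (Fin D) O, ∀ i j,
      (Matrix.stdBasis O (Fin D) (Fin D)).repr M (i, j) = M i j := by
    intro M i j
    rfl
  rw [endB, Basis.repr_reindex_apply, Basis.map_repr]
  show (Matrix.stdBasis O (Fin D) (Fin D)).repr (LinearMap.toMatrix b b f) (y.2, y.1) = _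
  rw [h, LinearMap.toMatrix_apply]

/-- the matrix of `a ⊗ b ↦ (x ↦ a * x * b)` in the bases is the transpose of `LR` -/
theorem toMatrix_mulLeftRight {O B : Type*} [CommRing O] [Ring B] [Algebra O B] {D : ℕ}
    (b : Basis (Fin D) O B) {c : SC O D} (hc : ∀ i j, b i * b j = ∑ k, c i j k • b k) :
    LinearMap.toMatrix (b.tensorProduct (b.map (MulOpposite.opLinearEquiv O))) (endB b)
      (AlgHom.mulLeftRight O B).toLinearMap = (LR c).transpose := by
  have hrep : ∀ i j k, b.repr (b i * b j) k = c i j k := by
    intro i j k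
    rw [hc, map_sum, Finsupp.finsetSum_apply, Finset.sum_eq_single k]
    · rw [map_smul, Basis.repr_self, Finsupp.smul_apply, Finsupp.single_eq_same, smul_eq_mul,
        mul_one]
    · intro m _ hm
      rw [map_smul, Basis.repr_self, Finsupp.smul_apply, Finsupp.single_eq_of_ne hm.symm,
        smul_zero]
    · intro h
      exact absurd (Finset.mem_univ k) h
  ext y x
  rw [LinearMap.toMatrix_apply, endB_repr, Basis.tensorProduct_apply, Matrix.transpose_apply,
    AlgHom.toLinearMap_apply, AlgHom.mulLeftRight_apply, Basis.map_apply]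
  show b.repr (b x.1 * b y.1 * b x.2) y.2 = _
  rw [hc x.1 y.1, Finset.sum_mul, map_sum, Finsupp.finsetSum_apply]
  refine Finset.sum_congr rfl fun m _ => ?_
  rw [smul_mul_assoc, map_smul, Finsupp.smul_apply, hrep, smul_eq_mul]

/-- **W3a.** a free Azumaya algebra has a unit as determinant of `LR` -/
theorem isUnit_of_azumaya {O B : Type} [CommRing O] [Ring B] [Algebra O B] [IsAzumaya O B]
    {D : ℕ} (b : Basis (Fin D) O B) {c : SC O D} (hc : ∀ i j, b i * b j = ∑ k, c i j k • b k) :
    IsUnit (LR c).det := by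
  have h1 := LinearEquiv.isUnit_det
    (LinearEquiv.ofBijective (AlgHom.mulLeftRight O B).toLinearMap IsAzumaya.bij)
    (b.tensorProduct (b.map (MulOpposite.opLinearEquiv O))) (endB b)
  have h2 : LinearMap.toMatrix (b.tensorProduct (b.map (MulOpposite.opLinearEquiv O))) (endB b)
      ((LinearEquiv.ofBijective (AlgHom.mulLeftRight O B).toLinearMap IsAzumaya.bij :
        B ⊗[O] Bᵐᵒᵖ ≃ₗ[O] Module.End O B) : B ⊗[O] Bᵐᵒᵖ →ₗ[O] Module.End O B) =
      (LR c).transpose := toMatrix_mulLeftRight b hc
  rw [h2, Matrix.det_transpose] at h1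
  exact h1

end Pool.Agent.Helper15.BR
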