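import Pool.Agent.Helper15.BR.TriU
import Mathlib.LinearAlgebra.Matrix.Kronecker

/-!
# BR, front end: change of basis for structure constants
-/

set_option autoImplicit false

namespace Pool.Agent.Helper15.BR

open Matrix

/-- the basis `(g / s) e` has the structure constants `c' / h` -/
def Rel {R : Type*} [CommRing R] {D : ℕ} (g : Matrix (Fin D) (Fin D) R) (s h : R)
    (c c' : SC R D) : Prop :=
  ∀ i j d, h * ∑ a, ∑ b, g i a * g j b * c a b d = s * ∑ k, c' i j k * g k d

theorem lin {R ι κ : Type*} [CommRing R] [Fintype ι] [Fintype κ] (u : ι → R) (g : ι → κ → R)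
    (G : κ → R) : ∑ a, (∑ x, u x * g x a) * G a = ∑ x, u x * ∑ a, g x a * G a := by
  simp only [Finset.sum_mul, Finset.mul_sum]
  rw [Finset.sum_comm]
  exact Finset.sum_congr rfl fun x _ => Finset.sum_congr rfl fun a _ => by ring

theorem dbl {R ι κ : Type*} [CommRing R] [Fintype ι] [Fintype κ] (u : ι → R) (v : κ → R)
    (c : ι → κ → R) : ∑ a, ∑ b, u a * v b * c a b = ∑ a, u a * ∑ b, v b * c a b := by
  refine Finset.sum_congr rfl fun a _ => ?_
  rw [Finset.mul_sum]
  exact Finset.sum_congr rfl fun b _ => by ring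

theorem quad {R : Type*} [CommRing R] {D : ℕ} (u v : Fin D → R) (g : Matrix (Fin D) (Fin D) R)
    (c : Fin D → Fin D → R) :
    ∑ a, ∑ b, (∑ x, u x * g x a) * (∑ y, v y * g y b) * c a b =
      ∑ x, ∑ y, u x * v y * ∑ a, ∑ b, g x a * g y b * c a b := by
  rw [dbl, lin, dbl]
  refine Finset.sum_congr rfl fun x _ => ?_
  congr 1
  have h1 : ∀ a, ∑ b, (∑ y, v y * g y b) * c a b = ∑ y, v y * ∑ b, g y b * c a b :=
    fun a => lin v g (c a)
  simp only [h1]
  have h2 : ∀ y, ∑ a, ∑ b, g x a * g y b * c a b = ∑ a, g x a * ∑ b, g y b * c a b :=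
    fun y => dbl _ _ _
  simp only [h2]
  simp only [Finset.mul_sum]
  rw [Finset.sum_comm]
  refine Finset.sum_congr rfl fun y _ => Finset.sum_congr rfl fun a _ =>
    Finset.sum_congr rfl fun b _ => by ring

/-- `Unr` is invariant under a change of basis over the fraction field -/
theorem Unr.of_rel {R : Type*} [CommRing R] [IsDomain R] {D : ℕ} {P : R} {c c' : SC R D}
    {g : Matrix (Fin D) (Fin D) R} {s : R} (hg : g.det ≠ 0) (hs : s ≠ 0) (hr : Rel g s 1 c c')
    (hu : Unr P c') : Unr P c := by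
  obtain ⟨g', s', h', c'', h1, h2, h3, h4, h5⟩ := hu
  refine ⟨g' * g, s' * s, h', c'', ?_, mul_ne_zero h2 hs, h3, h4, fun i j d => ?_⟩
  · rw [det_mul]
    exact mul_ne_zero h1 hg
  · have e1 : ∑ a, ∑ b, (g' * g) i a * (g' * g) j b * c a b d =
        ∑ x, ∑ y, g' i x * g' j y * ∑ a, ∑ b, g x a * g y b * c a b d := by
      simp only [Matrix.mul_apply]
      exact quad _ _ _ _
    have e2 : ∀ x y, ∑ a, ∑ b, g x a * g y b * c a b d = s * ∑ k, c' x y k * g k d := by
      intro x y
      rw [← hr x y d, one_mul]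
    simp only [e1, e2]
    have e3 : ∑ x, ∑ y, g' i x * g' j y * (s * ∑ k, c' x y k * g k d) =
        s * ∑ k, (∑ x, ∑ y, g' i x * g' j y * c' x y k) * g k d := by
      simp only [Finset.sum_mul, Finset.mul_sum]
      rw [Finset.sum_comm' (t' := Finset.univ) (s' := fun _ => Finset.univ) (by simp)]
      rw [Finset.sum_congr rfl fun y _ => Finset.sum_comm]
      rw [Finset.sum_comm]
      refine Finset.sum_congr rfl fun k _ => ?_
      rw [Finset.sum_comm]
      exact Finset.sum_congr rfl fun x _ => Finset.sum_congr rfl fun y _ => by ring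
    rw [e3]
    have e4 : ∀ k, h' * ∑ x, ∑ y, g' i x * g' j y * c' x y k = s' * ∑ l, c'' i j l * g' l k :=
      fun k => h5 i j k
    calc h' * (s * ∑ k, (∑ x, ∑ y, g' i x * g' j y * c' x y k) * g k d)
        = s * ∑ k, (h' * ∑ x, ∑ y, g' i x * g' j y * c' x y k) * g k d := by
          rw [Finset.mul_sum, Finset.mul_sum, Finset.mul_sum]
          exact Finset.sum_congr rfl fun k _ => by ring
      _ = s * ∑ k, (s' * ∑ l, c'' i j l * g' l k) * g k d := by simp only [e4]
      _ = s' * s * ∑ l, c'' i j l * (g' * g) l d := by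
          rw [mul_assoc, mul_left_comm]
          congr 1
          simp only [Matrix.mul_apply]
          rw [← lin]
          rw [Finset.mul_sum]
          exact Finset.sum_congr rfl fun k _ => by ring

open Kronecker in
/-- the matrix identity behind the change of basis -/
theorem mat_rel {R : Type*} [CommRing R] {D : ℕ} {c c' : SC R D}
    {g : Matrix (Fin D) (Fin D) R} {s h : R} (hr : Rel g s h c c') :
    h ^ 2 • ((g ⊗ₖ g) * LR c * (gᵀ ⊗ₖ (1 : Matrix (Fin D) (Fin D) R))) =
      s ^ 2 • (LR c' * ((1 : Matrix (Fin D) (Fin D) R) ⊗ₖ g)) := by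
  ext ⟨i, k⟩ ⟨j, d⟩
  have hL : ((g ⊗ₖ g) * LR c * (gᵀ ⊗ₖ (1 : Matrix (Fin D) (Fin D) R))) (i, k) (j, d) =
      ∑ m, ∑ x, (∑ a, ∑ b, g i a * g j b * c a b m) * g k x * c m x d := by
    rw [Matrix.mul_apply, Fintype.sum_prod_type]
    simp only [Matrix.mul_apply, Matrix.kroneckerMap_apply, Matrix.transpose_apply,
      Fintype.sum_prod_type, Matrix.one_apply, mul_ite, mul_one, mul_zero, Finset.sum_ite_eq',
      Finset.mem_univ, if_true, LR]
    simp only [Finset.sum_mul, Finset.mul_sum]
    -- left: b, a, x, m; right: m, x, a, b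
    rw [Finset.sum_comm]
    calc ∑ a, ∑ b, ∑ x, ∑ m, g i a * g k x * (c a b m * c m x d) * g j b
        = ∑ a, ∑ b, ∑ m, ∑ x, g i a * g k x * (c a b m * c m x d) * g j b :=
          Finset.sum_congr rfl fun a _ => Finset.sum_congr rfl fun b _ => Finset.sum_comm
      _ = ∑ a, ∑ m, ∑ b, ∑ x, g i a * g k x * (c a b m * c m x d) * g j b :=
          Finset.sum_congr rfl fun a _ => Finset.sum_comm
      _ = ∑ m, ∑ a, ∑ b, ∑ x, g i a * g k x * (c a b m * c m x d) * g j b := Finset.sum_comm
      _ = ∑ m, ∑ a, ∑ x, ∑ b, g i a * g k x * (c a b m * c m x d) * g j b :=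
          Finset.sum_congr rfl fun m _ => Finset.sum_congr rfl fun a _ => Finset.sum_comm
      _ = ∑ m, ∑ x, ∑ a, ∑ b, g i a * g k x * (c a b m * c m x d) * g j b :=
          Finset.sum_congr rfl fun m _ => Finset.sum_comm
      _ = _ := Finset.sum_congr rfl fun m _ => Finset.sum_congr rfl fun x _ =>
          Finset.sum_congr rfl fun a _ => Finset.sum_congr rfl fun b _ => by ring
  have hR : (LR c' * ((1 : Matrix (Fin D) (Fin D) R) ⊗ₖ g)) (i, k) (j, d) =
      ∑ l, c' i j l * ∑ p, c' l k p * g p d := by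
    rw [Matrix.mul_apply, Fintype.sum_prod_type]
    simp only [Matrix.kroneckerMap_apply, Matrix.one_apply, ite_mul, one_mul, zero_mul, mul_ite,
      mul_zero, LR]
    rw [Finset.sum_comm]
    simp only [Finset.sum_ite_eq', Finset.mem_univ, if_true, Finset.sum_mul, Finset.mul_sum]
    rw [Finset.sum_comm]
    exact Finset.sum_congr rfl fun l _ => Finset.sum_congr rfl fun p _ => by ring
  simp only [Matrix.smul_apply, smul_eq_mul]
  rw [hL, hR]
  have h1 : ∀ m, h * ∑ a, ∑ b, g i a * g j b * c a b m = s * ∑ l, c' i j l * g l m :=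
    fun m => hr i j m
  have h2 : ∀ l, h * ∑ m, ∑ x, g l m * g k x * c m x d = s * ∑ p, c' l k p * g p d :=
    fun l => hr l k d
  calc h ^ 2 * ∑ m, ∑ x, (∑ a, ∑ b, g i a * g j b * c a b m) * g k x * c m x d
      = h * ∑ m, ∑ x, (h * ∑ a, ∑ b, g i a * g j b * c a b m) * g k x * c m x d := by
        rw [pow_two, mul_assoc, Finset.mul_sum, Finset.mul_sum, Finset.mul_sum]
        refine Finset.sum_congr rfl fun m _ => ?_
        rw [Finset.mul_sum, Finset.mul_sum, Finset.mul_sum]
        exact Finset.sum_congr rfl fun x _ => by ring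
    _ = h * ∑ m, ∑ x, (s * ∑ l, c' i j l * g l m) * g k x * c m x d := by simp only [h1]
    _ = s * ∑ l, c' i j l * (h * ∑ m, ∑ x, g l m * g k x * c m x d) := by
        simp only [Finset.sum_mul, Finset.mul_sum]
        calc ∑ m, ∑ x, ∑ l, h * (s * (c' i j l * g l m) * g k x * c m x d)
            = ∑ m, ∑ l, ∑ x, h * (s * (c' i j l * g l m) * g k x * c m x d) :=
              Finset.sum_congr rfl fun m _ => Finset.sum_comm
          _ = ∑ l, ∑ m, ∑ x, h * (s * (c' i j l * g l m) * g k x * c m x d) := Finset.sum_comm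
          _ = _ := Finset.sum_congr rfl fun l _ => Finset.sum_congr rfl fun m _ =>
              Finset.sum_congr rfl fun x _ => by ring
    _ = s * ∑ l, c' i j l * (s * ∑ p, c' l k p * g p d) := by simp only [h2]
    _ = s ^ 2 * ∑ l, c' i j l * ∑ p, c' l k p * g p d := by
        rw [pow_two, mul_assoc, Finset.mul_sum, Finset.mul_sum, Finset.mul_sum]
        exact Finset.sum_congr rfl fun l _ => by ring

/-- the determinant of `LR` under a change of basis -/
theorem det_rel {R : Type*} [CommRing R] [IsDomain R] {D : ℕ} {c c' : SC R D}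
    {g : Matrix (Fin D) (Fin D) R} {s h : R} (hg : g.det ≠ 0) (hr : Rel g s h c c') :
    (h ^ 2) ^ (D * D) * (g.det ^ D * g.det ^ D) * (LR c).det = (s ^ 2) ^ (D * D) * (LR c').det := by
  have h1 := congrArg Matrix.det (mat_rel hr)
  rw [det_smul, det_smul, det_mul, det_mul, det_mul, det_kronecker, det_kronecker, det_kronecker,
    det_transpose, det_one, one_pow, one_mul, mul_one, Fintype.card_prod, Fintype.card_fin] at h1
  have h2 : g.det ^ D ≠ 0 := pow_ne_zero _ hg
  apply mul_right_cancel₀ h2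
  linear_combination h1

end Pool.Agent.Helper15.BR
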