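import Pool.Agent.Helper65.CL.Defs

/-!
# BR, front end: algebras given by structure constants, unramified at a prime element

`c a b d` is the coefficient of `e d` in the product `e a * e b` of basis elements.
-/

set_option autoImplicit false

namespace Pool.Agent.Helper15.BR

open NumberField Pool.Agent.Helper4.CB Pool.Agent.Helper65.CL
open Pool.Agent.Helper69.CB (TriDeg vl)

/-- structure constants -/
abbrev SC (R : Type*) (D : ℕ) : Type _ := Fin D → Fin D → Fin D → R

/-- image of structure constants under a map -/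
def mapSC {R S : Type*} {D : ℕ} (f : R → S) (c : SC R D) : SC S D := fun i j k => f (c i j k)

/-- the matrix of the map from `A ⊗ Aᵒᵖ` to the endomorphisms of `A`: the coefficient of `e y.2` in
`e x.1 * e y.1 * e x.2` -/
def LR {R : Type*} [CommRing R] {D : ℕ} (c : SC R D) :
    Matrix (Fin D × Fin D) (Fin D × Fin D) R :=
  fun x y => ∑ m, c x.1 y.1 m * c m x.2 y.2

/-- some basis of the algebra over the fraction field has structure constants in the local ring at
`P` and a unit as determinant of `LR`: the basis `(g / s) e` has the structure constants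
`c' / h` -/
def Unr {R : Type*} [CommRing R] {D : ℕ} (P : R) (c : SC R D) : Prop :=
  ∃ (g : Matrix (Fin D) (Fin D) R) (s h : R) (c' : SC R D), g.det ≠ 0 ∧ s ≠ 0 ∧ ¬ P ∣ h ∧
    ¬ P ∣ (LR c').det ∧
    ∀ i j d, h * ∑ a, ∑ b, g i a * g j b * c a b d = s * ∑ k, c' i j k * g k d

/-- good reduction at a place: some basis has integral structure constants and a unit as
determinant of `LR` -/
def Good {K : Type} [Field K] [NumberField K] {D : ℕ} (p : Pl K) (c : SC K D) : Prop :=
  ∃ (g : Matrix (Fin D) (Fin D) K) (c' : SC K D), g.det ≠ 0 ∧ (∀ i j k, vl p (c' i j k) ≤ 1) ∧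
    vl p (LR c').det = 1 ∧
    ∀ i j d, ∑ a, ∑ b, g i a * g j b * c a b d = ∑ k, c' i j k * g k d

theorem LR_map {R S : Type*} [CommRing R] [CommRing S] {D : ℕ} (f : R →+* S) (c : SC R D) :
    LR (mapSC f c) = (LR c).map f := by
  ext x y
  simp [LR, mapSC]

theorem det_LR_map {R S : Type*} [CommRing R] [CommRing S] {D : ℕ} (f : R →+* S) (c : SC R D) :
    (LR (mapSC f c)).det = f (LR c).det := by
  rw [LR_map, RingHom.map_det]
  rfl

/-- `Unr` depends on `P` only up to a unit -/
theorem Unr.of_associated {R : Type*} [CommRing R] {D : ℕ} {P Q : R} {c : SC R D}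
    (h : Associated P Q) (hu : Unr P c) : Unr Q c := by
  obtain ⟨g, s, h', c', h1, h2, h3, h4, h5⟩ := hu
  exact ⟨g, s, h', c', h1, h2, fun hd => h3 (h.dvd.trans hd), fun hd => h4 (h.dvd.trans hd), h5⟩

/-- `Unr` under a ring homomorphism (the equations only) -/
theorem unr_eq_map {R S : Type*} [CommRing R] [CommRing S] {D : ℕ} (f : R →+* S)
    {g : Matrix (Fin D) (Fin D) R} {s h : R} {c c' : SC R D}
    (hc : ∀ i j d, h * ∑ a, ∑ b, g i a * g j b * c a b d = s * ∑ k, c' i j k * g k d)
    (i j d : Fin D) :
    f h * ∑ a, ∑ b, f (g i a) * f (g j b) * f (c a b d) = f s * ∑ k, f (c' i j k) * f (g k d) := by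
  have := congrArg f (hc i j d)
  simpa only [map_mul, map_sum] using this

end Pool.Agent.Helper15.BR
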