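import Pool.Agent.Helper15.BR.Defs
import Pool.Agent.Helper4.CB.Desc

/-!
# BR, front end: the factors of the determinant of `LR` and their data are defined over a finite
extension
-/

set_option autoImplicit false

namespace Pool.Agent.Helper15.BR

open MvPolynomial
open Pool.Agent.Helper4.CB (isUnit_of_map irreducible_of_map exists_field)

/-- finitely many polynomials over the algebraic closure decide the factors of the determinant:
`G` is a condition on the degrees of a polynomial in the variables. -/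
theorem exists_data {K : Type} [Field K] {σ : Type} {D : ℕ} (G : (σ → ℕ) → Prop)
    (c : SC (MvPolynomial σ K) D) (hc : (LR c).det ≠ 0)
    (h : ∀ P : MvPolynomial σ (AlgebraicClosure K), Irreducible P →
      P ∣ map (algebraMap K (AlgebraicClosure K)) (LR c).det →
      G (fun j => P.degreeOf j) ∨
        Unr P (mapSC (map (algebraMap K (AlgebraicClosure K))) c)) :
    ∃ T : Finset (MvPolynomial σ (AlgebraicClosure K)),
      ∀ M : IntermediateField K (AlgebraicClosure K),
      (∀ p ∈ T, ∃ q : MvPolynomial σ M, map (algebraMap M (AlgebraicClosure K)) q = p) →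
      ∀ P : MvPolynomial σ M, Irreducible P → P ∣ map (algebraMap K M) (LR c).det →
        G (fun j => P.degreeOf j) ∨ Unr P (mapSC (map (algebraMap K M)) c) := by
  classical
  set Ω := AlgebraicClosure K
  set i : K →+* Ω := algebraMap K Ω
  have hc0 : map i (LR c).det ≠ 0 := by
    rw [Ne, map_eq_zero_iff _ (map_injective i i.injective)]
    exact hc
  obtain ⟨F, hF, u, hu⟩ := WfDvdMonoid.exists_factors (map i (LR c).det) hc0
  -- the data of a factor
  have hex : ∀ P : MvPolynomial σ Ω, ∃ T : Finset (MvPolynomial σ Ω), P ∈ F →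
      P ∈ T ∧ (G (fun j => P.degreeOf j) ∨
        ∃ (g : Matrix (Fin D) (Fin D) (MvPolynomial σ Ω)) (s h : MvPolynomial σ Ω)
          (c' : SC (MvPolynomial σ Ω) D), (∀ x y, g x y ∈ T) ∧ s ∈ T ∧ h ∈ T ∧
          (∀ x y z, c' x y z ∈ T) ∧ g.det ≠ 0 ∧ s ≠ 0 ∧ ¬ P ∣ h ∧ ¬ P ∣ (LR c').det ∧
          ∀ x y d, h * ∑ a, ∑ b, g x a * g y b * mapSC (map i) c a b d =
            s * ∑ k, c' x y k * g k d) := by
    intro P
    by_cases hP : P ∈ F
    · have hPc : P ∣ map i (LR c).det := by
        rw [← hu]
        exact Dvd.dvd.mul_right (Multiset.dvd_prod hP) _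
      rcases h P (hF P hP) hPc with h1 | ⟨g, s, h', c', h1, h2, h3, h4, h5⟩
      · exact ⟨{P}, fun _ => ⟨Finset.mem_singleton_self _, Or.inl h1⟩⟩
      · refine ⟨{P, s, h'} ∪ Finset.univ.image (fun x : Fin D × Fin D => g x.1 x.2) ∪
          Finset.univ.image (fun x : Fin D × Fin D × Fin D => c' x.1 x.2.1 x.2.2), fun _ =>
          ⟨by simp, Or.inr ⟨g, s, h', c', fun x y => ?_, by simp, by simp, fun x y z => ?_,
            h1, h2, h3, h4, h5⟩⟩⟩
        · exact Finset.mem_union_left _ (Finset.mem_union_right _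
            (Finset.mem_image.2 ⟨(x, y), Finset.mem_univ _, rfl⟩))
        · exact Finset.mem_union_right _
            (Finset.mem_image.2 ⟨(x, y, z), Finset.mem_univ _, rfl⟩)
    · exact ⟨∅, fun h => absurd h hP⟩
  choose T hT using hex
  refine ⟨F.toFinset.biUnion T ∪ {(u : MvPolynomial σ Ω)}, fun M hMT Q hQ hQc => ?_⟩
  set ι : MvPolynomial σ M →+* MvPolynomial σ Ω := map (algebraMap M Ω) with hι
  have hιinj : Function.Injective ι := map_injective _ (algebraMap M Ω).injective
  have hιa : ∀ x : MvPolynomial σ K, ι (map (algebraMap K M) x) = map i x := fun x => by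
    rw [hι, map_map, ← IsScalarTower.algebraMap_eq]
  have hmem : ∀ P ∈ F, ∀ p ∈ T P, ∃ q, ι q = p := fun P hP p hp =>
    hMT p (Finset.mem_union_left _ (Finset.mem_biUnion.mpr ⟨P, Multiset.mem_toFinset.mpr hP, hp⟩))
  obtain ⟨u', hu'⟩ := hMT (u : MvPolynomial σ Ω) (by simp)
  -- the factors over `M`
  have hfac : ∀ G : Multiset (MvPolynomial σ Ω), (∀ P ∈ G, P ∈ F) →
      ∃ G' : Multiset (MvPolynomial σ M), G'.map ι = G := by
    intro G
    induction G using Multiset.induction_on with
    | empty => exact fun _ => ⟨0, rfl⟩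
    | cons P G ih =>
      intro hG
      obtain ⟨G', hG'⟩ := ih (fun P hP => hG P (Multiset.mem_cons_of_mem hP))
      have hPF := hG P (Multiset.mem_cons_self P G)
      obtain ⟨q, hq⟩ := hmem P hPF P (hT P hPF).1
      exact ⟨q ::ₘ G', by rw [Multiset.map_cons, hG', hq]⟩
  obtain ⟨F', hF'⟩ := hfac F (fun _ h => h)
  have hu'u : IsUnit u' := isUnit_of_map (algebraMap M Ω) (by
    show IsUnit (ι u')
    rw [hι, hu']
    exact u.isUnit)
  have hc' : F'.prod * u' = map (algebraMap K M) (LR c).det := by
    apply hιinj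
    rw [map_mul, map_multiset_prod, hF', hιa, hu']
    exact hu
  have hQp : Prime Q := hQ.prime
  rw [← hc', hu'u.dvd_mul_right] at hQc
  obtain ⟨P', hP', hQP⟩ := hQp.exists_mem_multiset_dvd hQc
  have hP'F : ι P' ∈ F := by
    rw [← hF']
    exact Multiset.mem_map_of_mem ι hP'
  have hP'irr : Irreducible P' := irreducible_of_map (algebraMap M Ω) (hF _ hP'F)
  have hass : Associated Q P' := hQ.associated_of_dvd hP'irr hQP
  rcases (hT _ hP'F).2 with h1 | ⟨g, s, h', c', mg, ms, mh, mc, h1, h2, h3, h4, h5⟩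
  · left
    have hdeg : ∀ j, (ι P').degreeOf j = Q.degreeOf j := by
      intro j
      rw [hι, degreeOf_def, degrees_map_of_injective _ (algebraMap M Ω).injective,
        ← degreeOf_def]
      obtain ⟨v, hv⟩ := hass
      obtain ⟨c, hc, hvc⟩ := isUnit_iff_eq_C_of_isReduced.mp v.isUnit
      have h2 : P' = Q * C c := by rw [← hv, hvc]
      have h3 : Q = P' * C (c⁻¹) := by
        rw [h2, mul_assoc, ← C_mul, mul_inv_cancel₀ (isUnit_iff_ne_zero.mp hc), C_1, mul_one]
      apply le_antisymm
      · rw [h2]; exact degreeOf_mul_C_le Q j c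
      · conv_lhs => rw [h3]
        exact degreeOf_mul_C_le P' j _
    have h2 : (fun j => (ι P').degreeOf j) = fun j => Q.degreeOf j := funext hdeg
    rw [← h2]
    exact h1
  · right
    refine Unr.of_associated hass.symm ?_
    choose g0 hg0 using fun x y => hmem _ hP'F _ (mg x y)
    choose c0 hc0' using fun x y z => hmem _ hP'F _ (mc x y z)
    obtain ⟨s0, rfl⟩ := hmem _ hP'F _ ms
    obtain ⟨h0, rfl⟩ := hmem _ hP'F _ mh
    have hg : g = (Matrix.of g0).map ι := by
      ext1 x y
      exact (hg0 x y).symm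
    have hcc : c' = mapSC ι c0 := by
      funext x y z
      exact (hc0' x y z).symm
    subst hg
    subst hcc
    refine ⟨Matrix.of g0, s0, h0, c0, fun h => h1 ?_, fun h => h2 (by rw [h, map_zero]),
      fun hd => h3 (map_dvd ι hd), fun hd => h4 ?_, fun x y d => hιinj ?_⟩
    · have := RingHom.map_det ι (Matrix.of g0)
      rw [h, map_zero] at this
      exact this.symm
    · rw [det_LR_map]
      exact map_dvd ι hd
    · have h6 := h5 x y d
      have hm : ∀ a b d, ι (mapSC (map (algebraMap K M)) c a b d) =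
          mapSC (map i) c a b d := fun a b d => hιa _
      simp only [map_mul, map_sum, hm]
      exact h6

/-- **DESC.** for a finite family; the finite extension contains a primitive `e`-th root of
unity -/
theorem descend {K : Type} [Field K] [CharZero K] {σ ι : Type} [Finite ι] (G : (σ → ℕ) → Prop)
    (D : ι → ℕ) (c : ∀ i, SC (MvPolynomial σ K) (D i)) (hc : ∀ i, (LR (c i)).det ≠ 0)
    (e : ℕ) (he : e ≠ 0)
    (h : ∀ i, ∀ P : MvPolynomial σ (AlgebraicClosure K), Irreducible P →
      P ∣ map (algebraMap K (AlgebraicClosure K)) (LR (c i)).det →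
      G (fun j => P.degreeOf j) ∨
        Unr P (mapSC (map (algebraMap K (AlgebraicClosure K))) (c i))) :
    ∃ M : IntermediateField K (AlgebraicClosure K), FiniteDimensional K M ∧
      (∃ ζ : M, IsPrimitiveRoot ζ e) ∧
      ∀ i, ∀ P : MvPolynomial σ M, Irreducible P → P ∣ map (algebraMap K M) (LR (c i)).det →
        G (fun j => P.degreeOf j) ∨ Unr P (mapSC (map (algebraMap K M)) (c i)) := by
  classical
  cases nonempty_fintype ι
  have h1 := fun i => exists_data G (c i) (hc i) (h i)
  choose T hT using h1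
  have : NeZero (e : AlgebraicClosure K) := ⟨by
    have : CharZero (AlgebraicClosure K) :=
      charZero_of_injective_algebraMap (algebraMap K (AlgebraicClosure K)).injective
    exact_mod_cast he⟩
  obtain ⟨ζ, hζ⟩ := HasEnoughRootsOfUnity.exists_primitiveRoot (AlgebraicClosure K) e
  obtain ⟨M, hM, hMT⟩ := exists_field (K := K)
    (Finset.univ.biUnion T ∪ {(C ζ : MvPolynomial σ (AlgebraicClosure K))})
  refine ⟨M, hM, ?_, fun i => hT i M (fun p hp =>
    hMT p (Finset.mem_union_left _ (Finset.mem_biUnion.mpr ⟨i, Finset.mem_univ i, hp⟩)))⟩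
  obtain ⟨q, hq⟩ := hMT (C ζ) (by simp)
  have h2 : algebraMap M (AlgebraicClosure K) (q.coeff 0) = ζ := by
    have := congrArg (coeff 0) hq
    rwa [coeff_map, coeff_zero_C] at this
  exact ⟨q.coeff 0, IsPrimitiveRoot.of_map_of_injective (f := algebraMap M (AlgebraicClosure K))
    (by rwa [h2]) (algebraMap M (AlgebraicClosure K)).injective⟩

end Pool.Agent.Helper15.BR
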