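import Pool.Agent.Helper15.BR.Defs

/-!
# BR: the basis `1, i, j, k` of a quaternion algebra and its structure constants
-/

set_option autoImplicit false

namespace Pool.Agent.Helper15.BR

open Module

/-- the table of the basis `1, i, j, k = i j` of `QuaternionAlgebra R a 0 b` -/
def quatTab {R : Type*} [CommRing R] (a b : R) : SC R 4 :=
  ![![![1, 0, 0, 0], ![0, 1, 0, 0], ![0, 0, 1, 0], ![0, 0, 0, 1]],
    ![![0, 1, 0, 0], ![a, 0, 0, 0], ![0, 0, 0, 1], ![0, 0, a, 0]],
    ![![0, 0, 1, 0], ![0, 0, 0, -1], ![b, 0, 0, 0], ![0, -b, 0, 0]],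
    ![![0, 0, 0, 1], ![0, 0, -a, 0], ![0, b, 0, 0], ![-(a * b), 0, 0, 0]]]

theorem mapSC_quatTab {R S : Type*} [CommRing R] [CommRing S] (f : R →+* S) (a b : R) :
    mapSC f (quatTab a b) = quatTab (f a) (f b) := by
  funext i j k
  fin_cases i <;> fin_cases j <;> fin_cases k <;> simp [mapSC, quatTab]

/-- the basis `1, i, j, k` -/
def quatE {R : Type} [CommRing R] (a b : R) : Fin 4 → QuaternionAlgebra R a 0 b :=
  ![⟨1, 0, 0, 0⟩, ⟨0, 1, 0, 0⟩, ⟨0, 0, 1, 0⟩, ⟨0, 0, 0, 1⟩]

/-- the coordinates -/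
noncomputable def quatF {R : Type} [CommRing R] (a b : R) (m : Fin 4) :
    QuaternionAlgebra R a 0 b →ₗ[R] R :=
  (QuaternionAlgebra.basisOneIJK a 0 b).coord m

theorem quatF_apply {R : Type} [CommRing R] (a b : R) (m : Fin 4)
    (x : QuaternionAlgebra R a 0 b) : quatF a b m x = ![x.re, x.imI, x.imJ, x.imK] m := rfl

/-- **quat_dual**, pairing -/
theorem quat_dual_pair {R : Type} [CommRing R] (a b : R) (m n : Fin 4) :
    quatF a b m (quatE a b n) = if m = n then 1 else 0 := by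
  rw [quatF_apply]
  fin_cases m <;> fin_cases n <;> simp [quatE]

/-- **quat_dual**, coordinates -/
theorem quat_dual_coord {R : Type} [CommRing R] (a b : R) (x : QuaternionAlgebra R a 0 b) :
    (1 : R) • x = ∑ m, quatF a b m x • quatE a b m := by
  rw [Fin.sum_univ_four]
  ext <;> simp [quatF_apply, quatE]

/-- **quat_dual**, multiplication -/
theorem quat_dual_mul {R : Type} [CommRing R] (a b : R) (m n : Fin 4) :
    quatE a b m * quatE a b n = ∑ d, quatTab a b m n d • quatE a b d := by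
  rw [Fin.sum_univ_four]
  fin_cases m <;> fin_cases n <;> ext <;> simp [quatE, quatTab]

/-- **quat_dual** in the form of the data of `exists_dual` -/
theorem quat_dual {R : Type} [CommRing R] [Nontrivial R] (a b : R) :
    ∃ (e : Fin 4 → QuaternionAlgebra R a 0 b) (f : Fin 4 → QuaternionAlgebra R a 0 b →ₗ[R] R)
      (c : SC R 4) (h0 : R), c = quatTab a b ∧ h0 = 1 ∧ h0 ≠ 0 ∧
      (∀ x y, f x (e y) = if x = y then h0 else 0) ∧ (∀ x, h0 • x = ∑ y, f y x • e y) ∧
      ∀ x y, e x * e y = ∑ d, c x y d • e d :=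
  ⟨quatE a b, quatF a b, quatTab a b, 1, rfl, rfl, one_ne_zero, quat_dual_pair a b,
    quat_dual_coord a b, quat_dual_mul a b⟩

end Pool.Agent.Helper15.BR
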